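import Mathlib

/-!
# The direct sum of countably many infinite dihedral groups
-/

set_option autoImplicit false

namespace Pool.Agent.AlgRec

open DihedralGroup

/-- The infinite dihedral group. -/
abbrev Dih : Type := DihedralGroup 0

instance : Countable Dih :=
  Countable.of_equiv (ℤ ⊕ ℤ) (DihedralGroup.equivSum (n := 0)).symm

/-- The direct sum of countably many copies of the infinite dihedral group, as the subgroup of
finitely supported functions. -/
def DS : Subgroup (ℕ → Dih) where
  carrier := {f | ∃ n, ∀ j, n ≤ j → f j = 1}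
  mul_mem' := by
    rintro a b ⟨n, hn⟩ ⟨m, hm⟩
    refine ⟨max n m, fun j hj => ?_⟩
    rw [Pi.mul_apply, hn j (le_trans (le_max_left _ _) hj), hm j (le_trans (le_max_right _ _) hj),
      one_mul]
  one_mem' := ⟨0, fun _ _ => rfl⟩
  inv_mem' := by
    rintro a ⟨n, hn⟩
    refine ⟨n, fun j hj => ?_⟩
    rw [Pi.inv_apply, hn j hj, inv_one]

instance : Countable DS := by
  have h : (DS : Set (ℕ → Dih)) = ⋃ n : ℕ, {f : ℕ → Dih | ∀ j, n ≤ j → f j = 1} := by
    ext f
    simp only [Set.mem_iUnion, Set.mem_ofPred_eq]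
    rfl
  have h2 : (DS : Set (ℕ → Dih)).Countable := by
    rw [h]
    refine Set.countable_iUnion fun n => ?_
    have : Set.InjOn (fun (f : ℕ → Dih) (i : Fin n) => f i)
        {f : ℕ → Dih | ∀ j, n ≤ j → f j = 1} := by
      intro f hf g hg hfg
      funext j
      by_cases hj : j < n
      · exact congrFun hfg ⟨j, hj⟩
      · rw [hf j (not_lt.mp hj), hg j (not_lt.mp hj)]
    exact Set.MapsTo.countable_of_injOn (t := Set.univ) (fun _ _ => Set.mem_univ _) this
      (Set.to_countable _)
  exact h2.to_subtype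

/-- coordinate of an element -/
def co (g : DS) (j : ℕ) : Dih := (g : ℕ → Dih) j

@[simp] lemma co_mul (g h : DS) (j : ℕ) : co (g * h) j = co g j * co h j := rfl
@[simp] lemma co_one (j : ℕ) : co 1 j = 1 := rfl
@[simp] lemma co_inv (g : DS) (j : ℕ) : co g⁻¹ j = (co g j)⁻¹ := rfl

lemma DS_ext {g h : DS} (H : ∀ j, co g j = co h j) : g = h := by
  apply Subtype.ext
  funext j
  exact H j

/-- The element with coordinate `x` at `d` and trivial elsewhere. -/
def single (d : ℕ) : Dih →* DS where
  toFun x := ⟨Pi.mulSingle d x, ⟨d + 1, fun j hj => by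
    rw [Pi.mulSingle_eq_of_ne (by omega)]⟩⟩
  map_one' := by
    apply Subtype.ext
    simp
  map_mul' x y := by
    apply Subtype.ext
    simp [Pi.mulSingle_mul]

lemma co_single_same (d : ℕ) (x : Dih) : co (single d x) d = x := by
  simp [co, single]

lemma co_single_ne {d j : ℕ} (h : j ≠ d) (x : Dih) : co (single d x) j = 1 := by
  simp [co, single, Pi.mulSingle_eq_of_ne h]

/-- Elements supported on coordinates `< d`. -/
def U (d : ℕ) : Subgroup DS where
  carrier := {g | ∀ j, d ≤ j → co g j = 1}
  mul_mem' := by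
    intro a b ha hb j hj
    rw [co_mul, ha j hj, hb j hj, one_mul]
  one_mem' := fun _ _ => rfl
  inv_mem' := by
    intro a ha j hj
    rw [co_inv, ha j hj, inv_one]

lemma mem_U {d : ℕ} {g : DS} : g ∈ U d ↔ ∀ j, d ≤ j → co g j = 1 := Iff.rfl

lemma U_mono {d e : ℕ} (h : d ≤ e) : U d ≤ U e := fun _ hg j hj => hg j (h.trans hj)

/-- translation by one in coordinate `d` -/
def tt (d : ℕ) : DS := single d (r 1)

/-- reflection in coordinate `d` -/
def ss (d : ℕ) : DS := single d (sr 0)

/-- simultaneous reflection in coordinates `≤ d` -/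
def uu (d : ℕ) : DS := ⟨fun j => if j ≤ d then sr 0 else 1, ⟨d + 1, fun j hj =>
  if_neg (by omega)⟩⟩

lemma co_uu (d j : ℕ) : co (uu d) j = if j ≤ d then sr 0 else 1 := rfl

lemma single_mem_of {K : Subgroup DS} {d : ℕ} (ht : tt d ∈ K) (hs : ss d ∈ K) (x : Dih) :
    single d x ∈ K := by
  have hr : ∀ i : ZMod 0, single d (r i) ∈ K := by
    intro i
    obtain ⟨k, rfl⟩ := ZMod.intCast_surjective i
    have : (r (Int.cast k) : Dih) = (r 1) ^ k := by
      rw [r_zpow, one_mul]
    rw [this, map_zpow]
    exact K.zpow_mem ht _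
  cases x with
  | r i => exact hr i
  | sr i =>
    have : (sr i : Dih) = sr 0 * r i := by simp
    rw [this, map_mul]
    exact K.mul_mem hs (hr i)

lemma eq_top_of_tt_ss {K : Subgroup DS} (ht : ∀ d, tt d ∈ K) (hs : ∀ d, ss d ∈ K) : K = ⊤ := by
  have key : ∀ n : ℕ, ∀ g : DS, g ∈ U n → g ∈ K := by
    intro n
    induction n with
    | zero =>
      intro g hg
      have : g = 1 := DS_ext fun j => hg j (Nat.zero_le _)
      rw [this]
      exact K.one_mem
    | succ n ih =>
      intro g hg
      have h1 : g * (single n (co g n))⁻¹ ∈ U n := by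
        intro j hj
        rcases Nat.eq_or_lt_of_le hj with h | h
        · subst h
          rw [co_mul, co_inv, co_single_same, mul_inv_cancel]
        · rw [co_mul, co_inv, co_single_ne (by omega), hg j h, inv_one, one_mul]
      have h2 := ih _ h1
      have h3 : g = g * (single n (co g n))⁻¹ * single n (co g n) := by group
      rw [h3]
      exact K.mul_mem h2 (single_mem_of (ht n) (hs n) _)
  rw [Subgroup.eq_top_iff']
  intro g
  obtain ⟨n, hn⟩ := g.2
  exact key n g hn

lemma uu_zero : uu 0 = ss 0 := by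
  apply DS_ext
  intro j
  rw [co_uu]
  rcases Nat.eq_zero_or_pos j with h | h
  · subst h
    simp [ss, co_single_same]
  · rw [if_neg (by omega), ss, co_single_ne (by omega)]

lemma uu_succ (d : ℕ) : uu (d + 1) = uu d * ss (d + 1) := by
  apply DS_ext
  intro j
  rw [co_mul, co_uu, co_uu]
  rcases lt_trichotomy j (d + 1) with h | h | h
  · rw [if_pos (by omega), if_pos (by omega), ss, co_single_ne (by omega), mul_one]
  · subst h
    rw [if_pos le_rfl, if_neg (by omega), ss, co_single_same, one_mul]
  · rw [if_neg (by omega), if_neg (by omega), ss, co_single_ne (by omega), mul_one]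

lemma eq_top_of_tt_uu {K : Subgroup DS} (ht : ∀ d, tt d ∈ K) (hu : ∀ d, uu d ∈ K) : K = ⊤ := by
  apply eq_top_of_tt_ss ht
  intro d
  cases d with
  | zero => rw [← uu_zero]; exact hu 0
  | succ d =>
    have : ss (d + 1) = (uu d)⁻¹ * uu (d + 1) := by
      rw [uu_succ]; group
    rw [this]
    exact K.mul_mem (K.inv_mem (hu d)) (hu _)

lemma tt_mem (d : ℕ) : tt d ∈ U (d + 1) := by
  intro j hj
  rw [tt, co_single_ne (by omega)]

lemma ss_mem (d : ℕ) : ss d ∈ U (d + 1) := by
  intro j hj
  rw [ss, co_single_ne (by omega)]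

lemma uu_mem (d : ℕ) : uu d ∈ U (d + 1) := by
  intro j hj
  rw [co_uu, if_neg (by omega)]

/-- The square of an element of the dihedral group is a rotation. -/
lemma sq_rot (x : Dih) : ∃ a : ZMod 0, x * x = r a := by
  cases x with
  | r i => exact ⟨i + i, by simp⟩
  | sr i => exact ⟨0, by simp⟩

/-- The key word identity: if `x, y` are supported on coordinates `≤ d`, then
`x x y (y u_d)` is an involution. -/
lemma key_word {d : ℕ} {x y : DS} (hx : x ∈ U (d + 1)) (hy : y ∈ U (d + 1)) :
    (x * (x * (y * (y * uu d)))) * (x * (x * (y * (y * uu d)))) = 1 := by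
  apply DS_ext
  intro j
  simp only [co_mul, co_one, co_uu]
  by_cases hj : j ≤ d
  · rw [if_pos hj]
    obtain ⟨a, ha⟩ := sq_rot (co x j)
    obtain ⟨b, hb⟩ := sq_rot (co y j)
    have h1 : co x j * (co x j * (co y j * (co y j * sr 0))) = sr (0 - b - a) := by
      calc co x j * (co x j * (co y j * (co y j * sr 0)))
          = (co x j * co x j) * ((co y j * co y j) * sr 0) := by group
        _ = sr (0 - b - a) := by rw [ha, hb]; simp
    rw [h1, sr_mul_sr, sub_self]
    rfl
  · rw [if_neg hj, hx j (by omega), hy j (by omega)]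
    simp

end Pool.Agent.AlgRec
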