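import Mathlib

/-!
# Laws on the natural numbers given by their tails, and symmetrised laws on a group
-/

set_option autoImplicit false

namespace Pool.Agent.AlgRec

open MeasureTheory Filter Topology ENNReal

/-- A tail function: `T 0 = 1`, antitone, tending to `0`. -/
structure IsTail (T : ℕ → ℝ) : Prop where
  zero : T 0 = 1
  anti : ∀ d, T (d + 1) ≤ T d
  lim : Tendsto T atTop (𝓝 0)

lemma IsTail.hasSum {T : ℕ → ℝ} (h : IsTail T) : HasSum (fun d => T d - T (d + 1)) 1 := by
  rw [hasSum_iff_tendsto_nat_of_nonneg (fun d => sub_nonneg.mpr (h.anti d))]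
  have : (fun n => ∑ i ∈ Finset.range n, (T i - T (i + 1))) = fun n => T 0 - T n := by
    funext n
    exact Finset.sum_range_sub' T n
  rw [this, h.zero]
  simpa using h.lim.const_sub 1

/-- The law on `ℕ` with tail `T`. -/
noncomputable def tailPMF (T : ℕ → ℝ) (h : IsTail T) : PMF ℕ :=
  ⟨fun d => ENNReal.ofReal (T d - T (d + 1)), by
    have := h.hasSum
    have h2 := ENNReal.ofReal_tsum_of_nonneg (fun d => sub_nonneg.mpr (h.anti d)) this.summable
    rw [this.tsum_eq, ENNReal.ofReal_one] at h2
    rw [h2]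
    exact ENNReal.summable.hasSum⟩

lemma tailPMF_apply (T : ℕ → ℝ) (h : IsTail T) (d : ℕ) :
    tailPMF T h d = ENNReal.ofReal (T d - T (d + 1)) := rfl

lemma IsTail.antitone {T : ℕ → ℝ} (h : IsTail T) : Antitone T := antitone_nat_of_succ_le h.anti

lemma IsTail.nonneg {T : ℕ → ℝ} (h : IsTail T) (d : ℕ) : 0 ≤ T d :=
  h.antitone.le_of_tendsto h.lim d

lemma IsTail.le_one {T : ℕ → ℝ} (h : IsTail T) (d : ℕ) : T d ≤ 1 :=
  h.zero ▸ h.antitone (Nat.zero_le d)

/-- Mass of the levels `< d`. -/
lemma tailPMF_sum_lt (T : ℕ → ℝ) (h : IsTail T) (d : ℕ) :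
    ∑' j, (Set.Iio d).indicator (tailPMF T h) j = ENNReal.ofReal (1 - T d) := by
  rw [tsum_eq_sum (s := Finset.range d)]
  · rw [Finset.sum_congr rfl (g := fun j => ENNReal.ofReal (T j - T (j + 1)))]
    · rw [← ENNReal.ofReal_sum_of_nonneg (fun j _ => sub_nonneg.mpr (h.anti j)),
        Finset.sum_range_sub', h.zero]
    · intro j hj
      rw [Set.indicator_of_mem (show j ∈ Set.Iio d from Finset.mem_range.mp hj), tailPMF_apply]
  · intro j hj
    rw [Set.indicator_of_notMem]
    simpa using hj

/-- Mass of the levels `≥ d`. -/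
lemma tailPMF_sum_ge (T : ℕ → ℝ) (h : IsTail T) (d : ℕ) :
    ∑' j, (Set.Ici d).indicator (tailPMF T h) j = ENNReal.ofReal (T d) := by
  have h1 := tailPMF_sum_lt T h d
  have h2 : ∑' j, (Set.Iio d).indicator (tailPMF T h) j
      + ∑' j, (Set.Ici d).indicator (tailPMF T h) j = 1 := by
    rw [← ENNReal.tsum_add, ← (tailPMF T h).tsum_coe]
    refine tsum_congr fun j => ?_
    by_cases hj : j < d
    · rw [Set.indicator_of_mem (by simpa using hj), Set.indicator_of_notMem (by simpa using hj),
        add_zero]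
    · rw [Set.indicator_of_notMem (by simpa using hj), Set.indicator_of_mem (by simpa using hj),
        zero_add]
  rw [h1] at h2
  have h3 : (1 : ℝ≥0∞) = ENNReal.ofReal (1 - T d) + ENNReal.ofReal (T d) := by
    rw [← ENNReal.ofReal_add (sub_nonneg.mpr (h.le_one d)) (h.nonneg d)]
    simp
  rw [h3] at h2
  exact (ENNReal.add_right_inj ENNReal.ofReal_ne_top).mp h2

/-- Mass of the level `d`. -/
lemma tailPMF_sum_eq (T : ℕ → ℝ) (h : IsTail T) (d : ℕ) :
    ∑' j, ({d} : Set ℕ).indicator (tailPMF T h) j = ENNReal.ofReal (T d - T (d + 1)) := by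
  rw [tsum_eq_single d]
  · simp [tailPMF_apply]
  · intro j hj
    rw [Set.indicator_of_notMem]
    simpa using hj

section group

variable {G : Type} [Group G]

/-- One of the four steps at a given level. -/
def fourStep (a : Bool → G) (b : Bool × Bool) : G := bif b.1 then a b.2 else (a b.2)⁻¹

/-- Choose a level `d` with law `p`, then a uniform element of
`{step d true, step d false, (step d true)⁻¹, (step d false)⁻¹}`. -/
noncomputable def symLaw (p : PMF ℕ) (step : ℕ → Bool → G) : PMF G :=
  p.bind fun d => (PMF.uniformOfFintype (Bool × Bool)).map (fourStep (step d))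

open Classical in
lemma four_apply (a : Bool → G) (g : G) :
    ((PMF.uniformOfFintype (Bool × Bool)).map (fourStep a)) g
      = (if g = a true then (4⁻¹ : ℝ≥0∞) else 0) + (if g = a false then (4⁻¹ : ℝ≥0∞) else 0)
        + ((if g = (a true)⁻¹ then (4⁻¹ : ℝ≥0∞) else 0)
          + (if g = (a false)⁻¹ then (4⁻¹ : ℝ≥0∞) else 0)) := by
  rw [PMF.map_apply, tsum_fintype, Fintype.sum_prod_type, Fintype.sum_bool, Fintype.sum_bool,
    Fintype.sum_bool]
  simp only [fourStep, PMF.uniformOfFintype_apply, Fintype.card_prod, Fintype.card_bool, cond_true,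
    cond_false]
  norm_num

lemma symLaw_inv (p : PMF ℕ) (step : ℕ → Bool → G) (g : G) :
    symLaw p step g⁻¹ = symLaw p step g := by
  classical
  unfold symLaw
  rw [PMF.bind_apply, PMF.bind_apply]
  refine tsum_congr fun d => ?_
  congr 1
  rw [four_apply, four_apply]
  simp only [inv_inj, inv_eq_iff_eq_inv, inv_inv]
  rw [add_comm]

lemma symLaw_apply_ge (p : PMF ℕ) (step : ℕ → Bool → G) (d : ℕ) (b : Bool) :
    p d * 4⁻¹ ≤ symLaw p step (step d b) := by
  classical
  unfold symLaw
  rw [PMF.bind_apply]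
  refine le_trans ?_ (ENNReal.le_tsum d)
  gcongr
  rw [four_apply]
  cases b
  · rw [if_pos (rfl : step d false = step d false)]
    rw [add_assoc]
    exact le_trans (le_add_right le_rfl) (le_add_left le_rfl)
  · rw [if_pos (rfl : step d true = step d true)]
    rw [add_assoc]
    exact le_add_right le_rfl

lemma symLaw_mem_support {p : PMF ℕ} {step : ℕ → Bool → G} {d : ℕ} (hd : p d ≠ 0) (b : Bool) :
    step d b ∈ (symLaw p step).support := by
  rw [PMF.mem_support_iff]
  intro h
  have := symLaw_apply_ge p step d b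
  rw [h, nonpos_iff_eq_zero, mul_eq_zero] at this
  rcases this with h | h
  · exact hd h
  · exact absurd h (by simp)

lemma symLaw_toMeasure_le [MeasurableSpace G] [DiscreteMeasurableSpace G] (p : PMF ℕ)
    (step : ℕ → Bool → G) (A : Set G) (I : Set ℕ)
    (hA : ∀ d, d ∉ I → ∀ b, step d b ∉ A ∧ (step d b)⁻¹ ∉ A) :
    (symLaw p step).toMeasure A ≤ ∑' j, I.indicator p j := by
  classical
  unfold symLaw
  rw [PMF.toMeasure_bind_apply _ _ _ (MeasurableSet.of_discrete)]
  refine ENNReal.tsum_le_tsum fun d => ?_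
  by_cases hd : d ∈ I
  · rw [Set.indicator_of_mem hd]
    calc p d * _ ≤ p d * 1 := by
          gcongr
          exact prob_le_one
      _ = p d := mul_one _
  · rw [Set.indicator_of_notMem hd]
    have : ((PMF.uniformOfFintype (Bool × Bool)).map (fourStep (step d))).toMeasure A = 0 := by
      rw [PMF.toMeasure_apply_eq_zero_iff _ MeasurableSet.of_discrete]
      rw [Set.disjoint_left]
      intro g hg hgA
      rw [PMF.support_map] at hg
      obtain ⟨⟨b1, b2⟩, _, rfl⟩ := hg
      cases b1
      · exact (hA d hd b2).2 hgA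
      · exact (hA d hd b2).1 hgA
    rw [this, mul_zero]

end group

end Pool.Agent.AlgRec
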