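import Mathlib
import Pool.Agent.AlgRec.Group
import Pool.Agent.AlgRec.Law

/-!
# Product measure estimates and a criterion for algebraic recurrence
-/

set_option autoImplicit false

namespace Pool.Agent.AlgRec

open MeasureTheory ENNReal Filter Topology

section general

variable {G : Type} [Group G] [MeasurableSpace G] [DiscreteMeasurableSpace G]

/-- The law of the sequence of steps. -/
noncomputable abbrev PP (μ : PMF G) : Measure (ℕ → G) :=
  Measure.infinitePi (fun _ : ℕ => μ.toMeasure)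

omit [Group G] in
lemma PP_cyl (μ : PMF G) (s : Finset ℕ) (t : ℕ → Set G) :
    PP μ {ω | ∀ j ∈ s, ω j ∈ t j} = ∏ j ∈ s, μ.toMeasure (t j) := by
  have h := Measure.infinitePi_pi (μ := fun _ : ℕ => μ.toMeasure) (s := s) (t := t)
    (fun _ _ => MeasurableSet.of_discrete)
  rw [← h]
  rfl

/-- position of the walk -/
def X (n : ℕ) (ω : ℕ → G) : G := ((List.range n).map ω).prod

omit [MeasurableSpace G] [DiscreteMeasurableSpace G] in
@[simp] lemma X_zero (ω : ℕ → G) : X 0 ω = 1 := rfl

omit [MeasurableSpace G] [DiscreteMeasurableSpace G] in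
lemma X_succ (n : ℕ) (ω : ℕ → G) : X (n + 1) ω = X n ω * ω n := by
  simp [X, List.range_succ]

omit [MeasurableSpace G] [DiscreteMeasurableSpace G] in
lemma X_mem {K : Subgroup G} {ω : ℕ → G} {n : ℕ} (h : ∀ j < n, ω j ∈ K) : X n ω ∈ K := by
  induction n with
  | zero => exact K.one_mem
  | succ n ih =>
    rw [X_succ]
    exact K.mul_mem (ih fun j hj => h j (by omega)) (h n (by omega))

lemma ae_exists_eq (μ : PMF G) {g : G} (hg : g ∈ μ.support) (n : ℕ) :
    ∀ᵐ ω ∂(PP μ), ∃ i, n ≤ i ∧ ω i = g := by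
  rw [ae_iff]
  have hlt : μ.toMeasure {g}ᶜ < 1 := by
    rw [prob_compl_eq_one_sub MeasurableSet.of_discrete]
    apply ENNReal.sub_lt_self one_ne_top one_ne_zero
    rw [PMF.toMeasure_apply_singleton _ _ MeasurableSet.of_discrete]
    exact (PMF.mem_support_iff _ _).mp hg
  have hle : ∀ m : ℕ, PP μ {ω | ¬ ∃ i, n ≤ i ∧ ω i = g} ≤ (μ.toMeasure {g}ᶜ) ^ m := by
    intro m
    calc PP μ {ω | ¬ ∃ i, n ≤ i ∧ ω i = g}
        ≤ PP μ {ω | ∀ j ∈ Finset.Ico n (n + m), ω j ∈ ({g}ᶜ : Set G)} := by
          apply measure_mono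
          intro ω hω j hj
          intro h
          exact hω ⟨j, (Finset.mem_Ico.mp hj).1, h⟩
      _ = (μ.toMeasure {g}ᶜ) ^ m := by
          rw [PP_cyl μ _ (fun _ => ({g}ᶜ : Set G))]
          simp
  have ht := ENNReal.tendsto_pow_atTop_nhds_zero_of_lt_one hlt
  exact le_antisymm (ge_of_tendsto' ht hle) bot_le

/-- Deterministic part of the criterion. -/
lemma closure_eq_top {μ : PMF G} (hgen : Subgroup.closure μ.support = ⊤) {ω : ℕ → G} {n : ℕ}
    (h1 : ∀ g ∈ μ.support, ∃ i, n ≤ i ∧ ω i = g)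
    (h2 : ∀ i, (X i ω)⁻¹ ∈ Subsemigroup.closure (Set.range (fun k : ℕ => X (i + k) ω))) :
    Subsemigroup.closure (Set.range (fun k : ℕ => X (n + k) ω)) = ⊤ := by
  set S := Subsemigroup.closure (Set.range (fun k : ℕ => X (n + k) ω)) with hS
  have hX : ∀ i, n ≤ i → X i ω ∈ S := by
    intro i hi
    apply Subsemigroup.subset_closure
    exact ⟨i - n, by simp only; congr 1; omega⟩
  have hXi : ∀ i, n ≤ i → (X i ω)⁻¹ ∈ S := by
    intro i hi
    refine (Subsemigroup.closure_le.mpr ?_) (h2 i)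
    rintro _ ⟨k, rfl⟩
    exact hX (i + k) (by omega)
  have hinv : ∀ s ∈ S, s⁻¹ ∈ S := by
    intro s hs
    refine Subsemigroup.closure_induction (p := fun s _ => s⁻¹ ∈ S) ?_ ?_ hs
    · rintro _ ⟨k, rfl⟩
      exact hXi (n + k) (by omega)
    · intro a b _ _ ha hb
      rw [mul_inv_rev]
      exact S.mul_mem hb ha
  let K : Subgroup G :=
    { carrier := S
      mul_mem' := fun ha hb => S.mul_mem ha hb
      one_mem' := by
        have := S.mul_mem (hX n le_rfl) (hXi n le_rfl)
        rwa [mul_inv_cancel] at this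
      inv_mem' := fun ha => hinv _ ha }
  have hK : K = ⊤ := by
    rw [eq_top_iff, ← hgen, Subgroup.closure_le]
    intro g hg
    obtain ⟨i, hi, rfl⟩ := h1 g hg
    have : ω i = (X i ω)⁻¹ * X (i + 1) ω := by
      rw [X_succ]; group
    rw [this]
    exact S.mul_mem (hXi i hi) (hX (i + 1) (by omega))
  rw [eq_top_iff]
  intro g _
  have : g ∈ K := by rw [hK]; exact Subgroup.mem_top g
  exact this

/-- Criterion: if almost surely every `X_i` is inverted in the semigroup of its future, then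
the pair is algebraically recurrent. -/
lemma AR_of_inv [Countable G] {μ : PMF G} (hgen : Subgroup.closure μ.support = ⊤)
    (h : ∀ i, ∀ᵐ ω ∂(PP μ),
      (X i ω)⁻¹ ∈ Subsemigroup.closure (Set.range (fun k : ℕ => X (i + k) ω))) (n : ℕ) :
    ∀ᵐ ω ∂(PP μ), Subsemigroup.closure (Set.range (fun k : ℕ => X (n + k) ω)) = ⊤ := by
  have h1 : ∀ᵐ ω ∂(PP μ), ∀ g : G, g ∈ μ.support → ∃ i, n ≤ i ∧ ω i = g := by
    rw [ae_all_iff]
    intro g
    by_cases hg : g ∈ μ.support
    · filter_upwards [ae_exists_eq μ hg n] with ω hω _ using hω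
    · filter_upwards with ω hg' using absurd hg' hg
  filter_upwards [h1, ae_all_iff.mpr h] with ω hω1 hω2
  exact closure_eq_top hgen hω1 hω2

/-- Probability estimate: the event that `u` occurs after time `i`, before which all the steps
are in `A`. -/
lemma event_bound (μ : PMF G) (u : G) (A : Set G) (i : ℕ) (q Q : ℝ≥0∞) (hq0 : q ≠ 0)
    (hq : q ≤ μ u) (hQ : μ.toMeasure Aᶜ ≤ Q) :
    PP μ {ω | ¬ ∃ k, i ≤ k ∧ ω k = u ∧ ∀ j < k, ω j ∈ A} ≤ i * Q + Q * q⁻¹ := by
  have hu : u ∈ μ.support := by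
    rw [PMF.mem_support_iff]
    intro h
    rw [h] at hq
    exact hq0 (le_antisymm hq bot_le)
  have hsub : {ω : ℕ → G | ¬ ∃ k, i ≤ k ∧ ω k = u ∧ ∀ j < k, ω j ∈ A} ⊆
      (⋃ j ∈ Finset.range i, {ω | ω j ∈ Aᶜ}) ∪
      (⋃ m : ℕ, {ω | ∀ j ∈ insert (i + m) (Finset.Ico i (i + m)),
        ω j ∈ (if j = i + m then Aᶜ else ({u}ᶜ : Set G))}) ∪
      {ω | ¬ ∃ k, i ≤ k ∧ ω k = u} := by
    intro ω hω
    by_contra hcon
    simp only [Set.mem_union, not_or, Set.mem_iUnion, not_exists, Finset.mem_range] at hcon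
    obtain ⟨⟨hA1, hA2⟩, hA3⟩ := hcon
    have hA3' : ∃ k, i ≤ k ∧ ω k = u := by
      by_contra h
      exact hA3 (fun x hx => h ⟨x, hx⟩)
    classical
    let k := Nat.find hA3'
    obtain ⟨hik, hku⟩ := Nat.find_spec hA3'
    apply hω
    refine ⟨k, hik, hku, ?_⟩
    intro j hj
    by_cases hji : j < i
    · by_contra hjA
      exact hA1 j hji hjA
    · by_contra hjA
      apply hA2 (j - i)
      intro l hl
      have hji' : i + (j - i) = j := by omega
      rw [hji'] at hl ⊢
      rcases Finset.mem_insert.mp hl with h | h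
      · rw [if_pos h, h]
        exact hjA
      · have hl2 := Finset.mem_Ico.mp h
        rw [if_neg (by omega)]
        intro hlu
        exact Nat.find_min hA3' (show l < Nat.find hA3' by
          have : j < Nat.find hA3' := hj
          omega) ⟨hl2.1, hlu⟩
  refine le_trans (measure_mono hsub) ?_
  refine le_trans (measure_union_le _ _) ?_
  have h3 : PP μ {ω | ¬ ∃ k, i ≤ k ∧ ω k = u} = 0 := ae_iff.mp (ae_exists_eq μ hu i)
  rw [h3, add_zero]
  refine le_trans (measure_union_le _ _) ?_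
  refine add_le_add ?_ ?_
  · refine le_trans (measure_biUnion_finset_le _ _) ?_
    calc ∑ j ∈ Finset.range i, PP μ {ω | ω j ∈ Aᶜ} ≤ ∑ j ∈ Finset.range i, Q := by
          refine Finset.sum_le_sum fun j _ => ?_
          have h := PP_cyl μ {j} (fun _ => Aᶜ)
          simp only [Finset.mem_singleton, forall_eq, Finset.prod_singleton] at h
          rw [h]
          exact hQ
      _ = i * Q := by simp
  · refine le_trans (measure_iUnion_le _) ?_
    have hρ : μ.toMeasure {u}ᶜ ≤ 1 - q := by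
      rw [prob_compl_eq_one_sub MeasurableSet.of_discrete,
        PMF.toMeasure_apply_singleton _ _ MeasurableSet.of_discrete]
      exact tsub_le_tsub_left hq 1
    calc ∑' m : ℕ, PP μ {ω | ∀ j ∈ insert (i + m) (Finset.Ico i (i + m)),
          ω j ∈ (if j = i + m then Aᶜ else ({u}ᶜ : Set G))}
        ≤ ∑' m : ℕ, Q * (1 - q) ^ m := by
          refine ENNReal.tsum_le_tsum fun m => ?_
          rw [PP_cyl μ _ (fun j => if j = i + m then Aᶜ else ({u}ᶜ : Set G)),
            Finset.prod_insert (by simp), if_pos rfl]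
          refine mul_le_mul' hQ ?_
          rw [Finset.prod_congr rfl (g := fun _ => μ.toMeasure {u}ᶜ)]
          · simp only [Finset.prod_const, Nat.card_Ico, add_tsub_cancel_left]
            exact pow_le_pow_left' hρ m
          · intro j hj
            rw [if_neg (by have := (Finset.mem_Ico.mp hj).2; omega)]
      _ = Q * q⁻¹ := by
          rw [ENNReal.tsum_mul_left, ENNReal.tsum_geometric]
          congr 2
          exact ENNReal.sub_sub_cancel one_ne_top (hq.trans (PMF.coe_le_one _ _))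

end general

end Pool.Agent.AlgRec
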