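import Mathlib
import Pool.Agent.AlgRec.Walk

/-!
# A heavy-tailed law on the direct sum of infinite dihedral groups: not algebraically recurrent
-/

set_option autoImplicit false

namespace Pool.Agent.AlgRec

open MeasureTheory ENNReal Filter Topology DihedralGroup

/-- heavy tail -/
noncomputable def Th (d : ℕ) : ℝ := 4 / ((d : ℝ) + 4)

lemma Th_pos (d : ℕ) : 0 < Th d := by unfold Th; positivity

lemma Th_diff (d : ℕ) : Th d - Th (d + 1) = Th d * (1 / (d + 5)) := by
  unfold Th
  push_cast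
  field_simp
  ring

lemma Th_diff_pos (d : ℕ) : 0 < Th d - Th (d + 1) := by
  rw [Th_diff]
  have := Th_pos d
  positivity

lemma Th_isTail : IsTail Th where
  zero := by norm_num [Th]
  anti d := (sub_pos.mp (Th_diff_pos d)).le
  lim := by
    have h1 : Tendsto (fun n : ℕ => 1 / ((n : ℝ) + 1)) atTop (𝓝 0) :=
      tendsto_one_div_add_atTop_nhds_zero_nat
    have h2 := h1.const_mul 4
    rw [mul_zero] at h2
    refine squeeze_zero (fun d => (Th_pos d).le) (fun d => ?_) h2
    unfold Th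
    rw [mul_one_div]
    gcongr
    norm_num

/-- steps of the heavy-tailed walk -/
def stepH : ℕ → Bool → DS
  | 0, _ => tt 0
  | d + 1, true => tt (d + 1)
  | d + 1, false => tt (d + 1) * ss d

/-- the heavy-tailed law -/
noncomputable def muH : PMF DS := symLaw (tailPMF Th Th_isTail) stepH

lemma muH_inv (g : DS) : muH g⁻¹ = muH g := symLaw_inv _ _ _

lemma muH_gen : Subgroup.closure muH.support = ⊤ := by
  have hp : ∀ d, (tailPMF Th Th_isTail) d ≠ 0 := by
    intro d
    rw [tailPMF_apply]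
    simpa using Th_diff_pos d
  have ht : ∀ d, tt d ∈ Subgroup.closure muH.support := by
    intro d
    have := symLaw_mem_support (step := stepH) (hp d) true
    cases d with
    | zero => exact Subgroup.subset_closure this
    | succ d => exact Subgroup.subset_closure this
  apply eq_top_of_tt_ss ht
  intro d
  have h1 := Subgroup.subset_closure (symLaw_mem_support (step := stepH) (hp (d + 1)) false)
  have h2 : ss d = (tt (d + 1))⁻¹ * (tt (d + 1) * ss d) := by group
  rw [h2]
  exact Subgroup.mul_mem _ (Subgroup.inv_mem _ (ht (d + 1))) h1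

/-- Elements whose top coordinate is `d`, at which they are the translation by `±1`. -/
def V (d : ℕ) : Set DS := {g | g ∈ U (d + 1) ∧ (co g d = r 1 ∨ co g d = r (-1))}

lemma stepH_mem_V (d : ℕ) (b : Bool) : stepH d b ∈ V d := by
  cases d with
  | zero =>
    refine ⟨tt_mem 0, Or.inl ?_⟩
    exact co_single_same 0 _
  | succ d =>
    cases b
    · refine ⟨(U (d + 1 + 1)).mul_mem (tt_mem _) (U_mono (by omega) (ss_mem d)), Or.inl ?_⟩
      show co (tt (d + 1) * ss d) (d + 1) = r 1
      rw [co_mul, tt, ss, co_single_same, co_single_ne (by omega), mul_one]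
    · exact ⟨tt_mem _, Or.inl (co_single_same _ _)⟩

lemma inv_mem_V {d : ℕ} {g : DS} (h : g ∈ V d) : g⁻¹ ∈ V d := by
  refine ⟨(U (d + 1)).inv_mem h.1, ?_⟩
  rw [co_inv]
  rcases h.2 with h | h
  · right; rw [h]; rfl
  · left; rw [h]; rfl

lemma V_ne_one {d : ℕ} {g : DS} (h : g ∈ V d) : co g d ≠ 1 := by
  rcases h.2 with h | h
  · rw [h, one_def]
    intro hc
    rw [r.injEq] at hc
    exact absurd hc (by decide)
  · rw [h, one_def]
    intro hc
    rw [r.injEq] at hc
    exact absurd hc (by decide)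

lemma V_not_mem_U {d e : ℕ} (hde : d ≤ e) {g : DS} (h : g ∈ V e) : g ∉ U d :=
  fun hg => V_ne_one h (hg e hde)

lemma V_sub_U {d e : ℕ} (hde : e < d) {g : DS} (h : g ∈ V e) : g ∈ U d :=
  U_mono (by omega) h.1

lemma V_disj {d e : ℕ} (hde : d ≠ e) {g : DS} (h : g ∈ V e) : g ∉ V d := by
  intro h'
  rcases lt_or_gt_of_ne hde with hlt | hlt
  · exact V_not_mem_U (show d + 1 ≤ e by omega) h h'.1
  · exact V_not_mem_U (show e + 1 ≤ d by omega) h' h.1

section meas

variable [MeasurableSpace DS] [DiscreteMeasurableSpace DS]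

lemma muH_U (d : ℕ) : muH.toMeasure (U d : Set DS) ≤ ENNReal.ofReal (1 - Th d) := by
  rw [← tailPMF_sum_lt Th Th_isTail d]
  apply symLaw_toMeasure_le
  intro e he b
  have he' : d ≤ e := by simpa using he
  exact ⟨V_not_mem_U he' (stepH_mem_V e b), V_not_mem_U he' (inv_mem_V (stepH_mem_V e b))⟩

lemma muH_V (d : ℕ) : muH.toMeasure (V d) ≤ ENNReal.ofReal (Th d - Th (d + 1)) := by
  rw [← tailPMF_sum_eq Th Th_isTail d]
  apply symLaw_toMeasure_le
  intro e he b
  have he' : d ≠ e := fun h => he (by simp [h])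
  exact ⟨V_disj he' (stepH_mem_V e b), V_disj he' (inv_mem_V (stepH_mem_V e b))⟩

lemma muH_compl : muH.toMeasure ((⋃ d, V d)ᶜ) = 0 := by
  have h := symLaw_toMeasure_le (tailPMF Th Th_isTail) stepH ((⋃ d, V d)ᶜ) ∅ (by
    intro d _ b
    exact ⟨fun h => h (Set.mem_iUnion.mpr ⟨d, stepH_mem_V d b⟩),
      fun h => h (Set.mem_iUnion.mpr ⟨d, inv_mem_V (stepH_mem_V d b)⟩)⟩)
  simp only [Set.indicator_empty, tsum_zero] at h
  exact le_antisymm h bot_le

/-- The bad event at level `d`: the first two times at which the level is at least `d` both have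
level exactly `d`. -/
def bad (d i m : ℕ) : Set (ℕ → DS) :=
  {ω | ∀ j ∈ Finset.range (i + 1 + m + 1),
    ω j ∈ (if j = i ∨ j = i + 1 + m then V d else (U d : Set DS))}

omit [MeasurableSpace DS] [DiscreteMeasurableSpace DS] in
lemma bad_prod (a b : ℝ≥0∞) (i m : ℕ) :
    ∏ j ∈ Finset.range (i + 1 + m + 1), (if j = i ∨ j = i + 1 + m then a else b)
      = (b ^ i * a) * b ^ m * a := by
  rw [Finset.prod_range_succ, if_pos (Or.inr rfl), Finset.prod_range_add, Finset.prod_range_succ,
    if_pos (Or.inl rfl)]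
  congr 2
  · congr 1
    rw [Finset.prod_congr rfl (g := fun _ => b)]
    · simp
    · intro j hj
      have := Finset.mem_range.mp hj
      rw [if_neg (by omega)]
  · rw [Finset.prod_congr rfl (g := fun _ => b)]
    · simp
    · intro j hj
      have := Finset.mem_range.mp hj
      rw [if_neg (by omega)]

lemma bad_le (d i m : ℕ) : PP muH (bad d i m) ≤
    (ENNReal.ofReal (1 - Th d)) ^ i * (ENNReal.ofReal (1 - Th d)) ^ m *
      (ENNReal.ofReal (Th d - Th (d + 1))) ^ 2 := by
  unfold bad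
  rw [PP_cyl muH _ (fun j => if j = i ∨ j = i + 1 + m then V d else (U d : Set DS))]
  have h1 : ∏ j ∈ Finset.range (i + 1 + m + 1),
      muH.toMeasure (if j = i ∨ j = i + 1 + m then V d else (U d : Set DS))
      ≤ ∏ j ∈ Finset.range (i + 1 + m + 1), (if j = i ∨ j = i + 1 + m then
          ENNReal.ofReal (Th d - Th (d + 1)) else ENNReal.ofReal (1 - Th d)) := by
    refine Finset.prod_le_prod' fun j _ => ?_
    split_ifs
    · exact muH_V d
    · exact muH_U d
  refine h1.trans (le_of_eq ?_)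
  rw [bad_prod]
  ring

lemma bad_tsum (d : ℕ) : PP muH (⋃ i, ⋃ m, bad d i m) ≤
    ENNReal.ofReal (1 / 4) * tailPMF Th Th_isTail d := by
  have hT := Th_pos d
  have hT1 : Th d ≤ 1 := Th_isTail.le_one d
  have hgeo : ∑' i : ℕ, (ENNReal.ofReal (1 - Th d)) ^ i = ENNReal.ofReal (Th d)⁻¹ := by
    rw [ENNReal.tsum_geometric, ENNReal.ofReal_inv_of_pos hT]
    congr 1
    rw [← ENNReal.ofReal_one, ← ENNReal.ofReal_sub _ (by linarith)]
    congr 1
    ring
  calc PP muH (⋃ i, ⋃ m, bad d i m) ≤ ∑' i, PP muH (⋃ m, bad d i m) := measure_iUnion_le _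
    _ ≤ ∑' i, ∑' m, PP muH (bad d i m) := ENNReal.tsum_le_tsum fun i => measure_iUnion_le _
    _ ≤ ∑' i : ℕ, ∑' m : ℕ, (ENNReal.ofReal (1 - Th d)) ^ i * (ENNReal.ofReal (1 - Th d)) ^ m *
          (ENNReal.ofReal (Th d - Th (d + 1))) ^ 2 :=
        ENNReal.tsum_le_tsum fun i => ENNReal.tsum_le_tsum fun m => bad_le d i m
    _ = ENNReal.ofReal (Th d)⁻¹ * ENNReal.ofReal (Th d)⁻¹ *
          (ENNReal.ofReal (Th d - Th (d + 1))) ^ 2 := by
        simp_rw [ENNReal.tsum_mul_right, ENNReal.tsum_mul_left, hgeo, ENNReal.tsum_mul_right, hgeo]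
    _ ≤ ENNReal.ofReal (1 / 4) * tailPMF Th Th_isTail d := by
        rw [tailPMF_apply, sq, ← ENNReal.ofReal_mul (by positivity),
          ← ENNReal.ofReal_mul (Th_diff_pos d).le, ← ENNReal.ofReal_mul (by positivity),
          ← ENNReal.ofReal_mul (by norm_num)]
        apply ENNReal.ofReal_le_ofReal
        rw [Th_diff]
        have h5 : (Th d)⁻¹ * (Th d)⁻¹ * (Th d * (1 / ((d:ℝ) + 5)) * (Th d * (1 / ((d:ℝ) + 5))))
            = (1 / ((d:ℝ) + 5)) * (1 / ((d:ℝ) + 5)) := by
          field_simp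
        rw [h5]
        have h6 : 1 / 4 * (Th d * (1 / ((d:ℝ) + 5))) = (1 / ((d:ℝ) + 4)) * (1 / ((d:ℝ) + 5)) := by
          unfold Th
          field_simp
        rw [h6]
        apply mul_le_mul_of_nonneg_right _ (by positivity)
        apply one_div_le_one_div_of_le (by positivity)
        linarith

lemma bad_total : PP muH (⋃ d, ⋃ i, ⋃ m, bad d i m) ≤ ENNReal.ofReal (1 / 4) := by
  calc PP muH (⋃ d, ⋃ i, ⋃ m, bad d i m) ≤ ∑' d, PP muH (⋃ i, ⋃ m, bad d i m) :=
        measure_iUnion_le _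
    _ ≤ ∑' d, ENNReal.ofReal (1 / 4) * tailPMF Th Th_isTail d :=
        ENNReal.tsum_le_tsum fun d => bad_tsum d
    _ = ENNReal.ofReal (1 / 4) := by
        rw [ENNReal.tsum_mul_left, (tailPMF Th Th_isTail).tsum_coe, mul_one]

end meas

/-- Structure of the walk when no bad event occurs. -/
lemma walk_struct {ω : ℕ → DS} (hV : ∀ i, ∃ d, ω i ∈ V d) (hbad : ∀ d i m, ω ∉ bad d i m) (k : ℕ) :
    ∃ d i, i ≤ k ∧ (∀ j < i, ω j ∈ U d) ∧ ω i ∈ V d ∧ (∀ j, i < j → j ≤ k → ω j ∈ U d) ∧
      co (X (k + 1) ω) d = co (ω i) d ∧ X (k + 1) ω ∈ U (d + 1) := by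
  induction k with
  | zero =>
    obtain ⟨d, hd⟩ := hV 0
    refine ⟨d, 0, le_rfl, by simp, hd, fun j h1 h2 => by omega, ?_, ?_⟩
    · rw [X_succ, X_zero, one_mul]
    · rw [X_succ, X_zero, one_mul]; exact hd.1
  | succ k ih =>
    obtain ⟨d, i, hik, h1, h2, h3, h4, h5⟩ := ih
    obtain ⟨e, he⟩ := hV (k + 1)
    rcases lt_trichotomy e d with hlt | heq | hgt
    · have hU : ω (k + 1) ∈ U d := V_sub_U hlt he
      refine ⟨d, i, by omega, h1, h2, ?_, ?_, ?_⟩
      · intro j hj1 hj2
        rcases Nat.lt_or_ge j (k + 1) with h | h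
        · exact h3 j hj1 (by omega)
        · have : j = k + 1 := by omega
          rw [this]; exact hU
      · rw [X_succ, co_mul, h4, hU d le_rfl, mul_one]
      · rw [X_succ]
        exact (U (d + 1)).mul_mem h5 (U_mono (by omega) hU)
    · exfalso
      subst heq
      apply hbad e i (k - i)
      intro j hj
      have hj' : j < i + 1 + (k - i) + 1 := Finset.mem_range.mp hj
      split_ifs with hcond
      · rcases hcond with h | h
        · rw [h]; exact h2
        · have : j = k + 1 := by omega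
          rw [this]; exact he
      · push Not at hcond
        rcases lt_or_gt_of_ne hcond.1 with h | h
        · exact h1 j h
        · exact h3 j h (by omega)
    · refine ⟨e, k + 1, le_rfl, ?_, he, fun j hj1 hj2 => by omega, ?_, ?_⟩
      · intro j hj
        rcases lt_trichotomy j i with h | h | h
        · exact U_mono (by omega) (h1 j h)
        · rw [h]; exact V_sub_U hgt h2
        · exact U_mono (by omega) (h3 j h (by omega))
      · rw [X_succ, co_mul, h5 e (by omega), one_mul]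
      · rw [X_succ]
        exact (U (e + 1)).mul_mem (U_mono (by omega) h5) he.1

/-- The random positive semigroup. -/
def posSemi (ω : ℕ → DS) : Subsemigroup DS where
  carrier := {g | ∃ d i n, 0 < n ∧ (∀ j < i, ω j ∈ U d) ∧ ω i ∈ V d ∧
    co g d = (co (ω i) d) ^ n ∧ g ∈ U (d + 1)}
  mul_mem' := by
    rintro a b ⟨d, i, n, hn, h1, h2, h3, h4⟩ ⟨d', i', n', hn', h1', h2', h3', h4'⟩
    rcases lt_trichotomy d d' with h | h | h
    · refine ⟨d', i', n', hn', h1', h2', ?_, ?_⟩
      · rw [co_mul, h4 d' (by omega), one_mul, h3']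
      · exact (U (d' + 1)).mul_mem (U_mono (by omega) h4) h4'
    · subst h
      have hi : i = i' := by
        rcases lt_trichotomy i i' with h | h | h
        · exact absurd (h1' i h) (V_not_mem_U le_rfl h2)
        · exact h
        · exact absurd (h1 i' h) (V_not_mem_U le_rfl h2')
      subst hi
      refine ⟨d, i, n + n', by omega, h1, h2, ?_, ?_⟩
      · rw [co_mul, h3, h3', pow_add]
      · exact (U (d + 1)).mul_mem h4 h4'
    · refine ⟨d, i, n, hn, h1, h2, ?_, ?_⟩
      · rw [co_mul, h4' d (by omega), mul_one, h3]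
      · exact (U (d + 1)).mul_mem h4 (U_mono (by omega) h4')

lemma one_not_mem_posSemi (ω : ℕ → DS) : (1 : DS) ∉ posSemi ω := by
  rintro ⟨d, i, n, hn, _, h2, h3, _⟩
  rw [co_one] at h3
  have h0 : ((n : ℤ) : ZMod 0) ≠ 0 := by
    intro h
    have : (n : ℤ) = 0 := h
    omega
  rcases h2.2 with h | h
  · rw [h, r_pow, one_def, r.injEq, one_mul] at h3
    exact h0 (by simpa using h3.symm)
  · rw [h, r_pow, one_def, r.injEq] at h3
    apply h0
    have h4 : -(1 : ZMod 0) * (n : ZMod 0) = 0 := h3.symm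
    rw [neg_one_mul, neg_eq_zero] at h4
    simpa using h4

lemma closure_ne_top {ω : ℕ → DS} (hV : ∀ i, ∃ d, ω i ∈ V d) (hbad : ∀ d i m, ω ∉ bad d i m) :
    Subsemigroup.closure (Set.range (fun k : ℕ => X (1 + k) ω)) ≠ ⊤ := by
  intro htop
  have hle : Subsemigroup.closure (Set.range (fun k : ℕ => X (1 + k) ω)) ≤ posSemi ω := by
    rw [Subsemigroup.closure_le]
    rintro _ ⟨k, rfl⟩
    obtain ⟨d, i, _, h1, h2, _, h4, h5⟩ := walk_struct hV hbad k
    refine ⟨d, i, 1, one_pos, h1, h2, ?_, ?_⟩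
    · show co (X (1 + k) ω) d = _
      rw [pow_one, add_comm 1 k]
      exact h4
    · show X (1 + k) ω ∈ _
      rw [add_comm 1 k]
      exact h5
  rw [htop] at hle
  exact one_not_mem_posSemi ω (hle (Subsemigroup.mem_top _))

theorem muH_not_AR [MeasurableSpace DS] [DiscreteMeasurableSpace DS] :
    ¬ ∀ᵐ ω ∂(PP muH), Subsemigroup.closure (Set.range (fun k : ℕ => X (1 + k) ω)) = ⊤ := by
  intro h
  have hV : ∀ᵐ ω ∂(PP muH), ∀ i : ℕ, ∃ d, ω i ∈ V d := by
    rw [ae_all_iff]
    intro i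
    rw [ae_iff]
    have h1 := PP_cyl muH {i} (fun _ => (⋃ d, V d)ᶜ)
    simp only [Finset.mem_singleton, forall_eq, Finset.prod_singleton] at h1
    rw [muH_compl] at h1
    refine le_antisymm (le_trans (measure_mono ?_) h1.le) bot_le
    intro ω hω hcon
    obtain ⟨d, hd⟩ := Set.mem_iUnion.mp hcon
    exact hω ⟨d, hd⟩
  have hb : ∀ᵐ ω ∂(PP muH), ω ∈ ⋃ d, ⋃ i, ⋃ m, bad d i m := by
    filter_upwards [h, hV] with ω hω hVω
    by_contra hcon
    simp only [Set.mem_iUnion, not_exists] at hcon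
    exact closure_ne_top hVω hcon hω
  have h1 : PP muH (⋃ d, ⋃ i, ⋃ m, bad d i m) = 1 := by
    have := measure_eq_measure_of_null_sdiff
      (μ := PP muH) (s := ⋃ d, ⋃ i, ⋃ m, bad d i m) (t := Set.univ) (Set.subset_univ _) (by
        rw [← Set.compl_eq_univ_sdiff]
        exact hb)
    rw [this]
    exact measure_univ
  have h2 := bad_total
  rw [h1] at h2
  have h3 : ENNReal.ofReal (1 / 4) < 1 := by
    rw [← ENNReal.ofReal_one]
    exact (ENNReal.ofReal_lt_ofReal_iff one_pos).mpr (by norm_num)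
  exact absurd h2 (not_le.mpr h3)

end Pool.Agent.AlgRec
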