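import Mathlib
import Pool.Agent.AlgRec.Walk

/-!
# A light-tailed law on the direct sum of infinite dihedral groups: algebraically recurrent
-/

set_option autoImplicit false

namespace Pool.Agent.AlgRec

open MeasureTheory ENNReal Filter Topology DihedralGroup

/-- light tail -/
noncomputable def Tl (d : ℕ) : ℝ := 1 / ((d + 1).factorial : ℝ)

lemma Tl_pos (d : ℕ) : 0 < Tl d := by unfold Tl; positivity

lemma Tl_succ (d : ℕ) : Tl (d + 1) = Tl d / (d + 2) := by
  unfold Tl
  rw [Nat.factorial_succ (d + 1)]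
  push_cast
  field_simp
  ring

lemma Tl_le (d : ℕ) : Tl d ≤ 1 / ((d : ℝ) + 1) := by
  unfold Tl
  apply one_div_le_one_div_of_le (by positivity)
  have := Nat.self_le_factorial (d + 1)
  exact_mod_cast this

lemma Tl_isTail : IsTail Tl where
  zero := by simp [Tl]
  anti d := by
    rw [Tl_succ]
    have h := Tl_pos d
    rw [div_le_iff₀ (by positivity)]
    nlinarith [(Nat.cast_nonneg d : (0:ℝ) ≤ d)]
  lim := by
    refine squeeze_zero (fun d => (Tl_pos d).le) Tl_le ?_
    exact tendsto_one_div_add_atTop_nhds_zero_nat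

/-- steps of the light-tailed walk -/
def stepL (d : ℕ) (b : Bool) : DS := bif b then tt d else uu d

/-- the light-tailed law -/
noncomputable def muL : PMF DS := symLaw (tailPMF Tl Tl_isTail) stepL

lemma muL_inv (g : DS) : muL g⁻¹ = muL g := symLaw_inv _ _ _

lemma Tl_diff (d : ℕ) : Tl d - Tl (d + 1) = Tl d * ((d + 1) / (d + 2)) := by
  rw [Tl_succ]
  field_simp
  ring

lemma Tl_diff_pos (d : ℕ) : 0 < Tl d - Tl (d + 1) := by
  rw [Tl_diff]
  have := Tl_pos d
  positivity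

lemma muL_gen : Subgroup.closure muL.support = ⊤ := by
  have hp : ∀ d, (tailPMF Tl Tl_isTail) d ≠ 0 := by
    intro d
    rw [tailPMF_apply]
    simpa using Tl_diff_pos d
  apply eq_top_of_tt_uu
  · intro d
    exact Subgroup.subset_closure (symLaw_mem_support (step := stepL) (hp d) true)
  · intro d
    exact Subgroup.subset_closure (symLaw_mem_support (step := stepL) (hp d) false)

section meas

variable [MeasurableSpace DS] [DiscreteMeasurableSpace DS]

lemma muL_compl (d : ℕ) : muL.toMeasure ((U (d + 1) : Set DS)ᶜ) ≤ ENNReal.ofReal (Tl (d + 1)) := by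
  rw [← tailPMF_sum_ge Tl Tl_isTail (d + 1)]
  apply symLaw_toMeasure_le
  intro e he b
  have he' : e < d + 1 := by simpa using he
  have h1 : stepL e b ∈ U (d + 1) := by
    apply U_mono (show e + 1 ≤ d + 1 by omega)
    cases b
    · exact uu_mem e
    · exact tt_mem e
  exact ⟨fun h => h h1, fun h => h ((U (d + 1)).inv_mem h1)⟩

omit [MeasurableSpace DS] [DiscreteMeasurableSpace DS] in
lemma muL_uu (d : ℕ) : ENNReal.ofReal ((Tl d - Tl (d + 1)) / 4) ≤ muL (uu d) := by
  have h := symLaw_apply_ge (tailPMF Tl Tl_isTail) stepL d false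
  refine le_trans (le_of_eq ?_) h
  rw [tailPMF_apply, ENNReal.ofReal_div_of_pos (by norm_num), div_eq_mul_inv]
  norm_num

lemma muL_event (i d : ℕ) :
    PP muL {ω | ¬ ∃ k, i ≤ k ∧ ω k = uu d ∧ ∀ j < k, ω j ∈ (U (d + 1) : Set DS)} ≤
      ENNReal.ofReal (i * Tl (d + 1) + 4 * (1 / ((d : ℝ) + 1))) := by
  have h := event_bound muL (uu d) (U (d + 1) : Set DS) i
    (ENNReal.ofReal ((Tl d - Tl (d + 1)) / 4)) (ENNReal.ofReal (Tl (d + 1)))
    (by simpa using Tl_diff_pos d) (muL_uu d) (muL_compl d)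
  refine h.trans (le_of_eq ?_)
  have hpos : 0 < (Tl d - Tl (d + 1)) / 4 := by linarith [Tl_diff_pos d]
  have hT := Tl_pos (d + 1)
  rw [ENNReal.ofReal_add (by positivity) (by positivity),
    ENNReal.ofReal_mul (Nat.cast_nonneg i), ENNReal.ofReal_natCast]
  congr 1
  rw [← ENNReal.ofReal_inv_of_pos hpos, ← ENNReal.ofReal_mul hT.le]
  congr 1
  rw [Tl_diff, Tl_succ]
  have := Tl_pos d
  field_simp

lemma muL_ae (i : ℕ) : ∀ᵐ ω ∂(PP muL), ∃ d k, i ≤ k ∧ ω k = uu d ∧ ∀ j < k, ω j ∈ U (d + 1) := by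
  rw [ae_iff]
  have hle : ∀ d : ℕ, PP muL {ω | ¬ ∃ d k, i ≤ k ∧ ω k = uu d ∧ ∀ j < k, ω j ∈ U (d + 1)} ≤
      ENNReal.ofReal (i * Tl (d + 1) + 4 * (1 / ((d : ℝ) + 1))) := by
    intro d
    refine le_trans (measure_mono ?_) (muL_event i d)
    intro ω hω hcon
    exact hω ⟨d, hcon⟩
  have hlim : Tendsto (fun d : ℕ => ENNReal.ofReal (i * Tl (d + 1) + 4 * (1 / ((d : ℝ) + 1))))
      atTop (𝓝 0) := by
    rw [← ENNReal.ofReal_zero]
    apply ENNReal.tendsto_ofReal
    have h1 : Tendsto (fun d : ℕ => Tl (d + 1)) atTop (𝓝 0) :=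
      (tendsto_add_atTop_iff_nat 1).mpr Tl_isTail.lim
    have h2 := (h1.const_mul (i : ℝ)).add
      ((tendsto_one_div_add_atTop_nhds_zero_nat (𝕜 := ℝ)).const_mul 4)
    simpa using h2
  exact le_antisymm (ge_of_tendsto' hlim hle) bot_le

theorem muL_AR (n : ℕ) : ∀ᵐ ω ∂(PP muL),
    Subsemigroup.closure (Set.range (fun k : ℕ => X (n + k) ω)) = ⊤ := by
  refine AR_of_inv muL_gen (fun i => ?_) n
  filter_upwards [muL_ae i] with ω hω
  obtain ⟨d, k, hik, hk, hj⟩ := hω
  set S := Subsemigroup.closure (Set.range (fun k : ℕ => X (i + k) ω)) with hS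
  have hX : ∀ m, i ≤ m → X m ω ∈ S := by
    intro m hm
    apply Subsemigroup.subset_closure
    exact ⟨m - i, by simp only; congr 1; omega⟩
  have hx : X i ω ∈ U (d + 1) := X_mem fun j hj' => hj j (by omega)
  have hy : X k ω ∈ U (d + 1) := X_mem fun j hj' => hj j (by omega)
  have hz : X (k + 1) ω = X k ω * uu d := by rw [X_succ, hk]
  have hkey := key_word hx hy
  rw [← hz] at hkey
  have h1 : X i ω * (X k ω * X (k + 1) ω) ∈ S :=
    S.mul_mem (hX i le_rfl) (S.mul_mem (hX k hik) (hX (k + 1) (by omega)))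
  have h2 : (X i ω)⁻¹ = (X i ω * (X k ω * X (k + 1) ω)) *
      (X i ω * (X i ω * (X k ω * X (k + 1) ω))) := by
    rw [inv_eq_iff_mul_eq_one, ← mul_assoc]
    exact hkey
  rw [h2]
  exact S.mul_mem h1 (S.mul_mem (hX i le_rfl) h1)

end meas

end Pool.Agent.AlgRec
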